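import Mathlib
import Pool.Agent.Helper934.AnnC2

set_option autoImplicit false

/-!
# Plank coverings of a disc with a small hole: explicit constant, all ellipses

The constant of the starting library is made explicit (`10⁻⁷⁰`), and the theorem is transferred to
all ellipses, with the widths of the planks measured relative to the ellipse.
-/

open MeasureTheory Set Metric

namespace Pool.Agent.Y512.Ann

open Pool.Agent.Helper934.Ann

/-- The Euclidean plane. -/
abbrev E2 := EuclideanSpace ℝ (Fin 2)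

variable {n : ℕ}

/-- the second stage of the starting library with an explicit constant -/
theorem stageB_explicit (C : Cfg n) (hε1 : C.ε ≤ 1 / 10 ^ 70)
    (k : ℕ) (g : ℝ) (hg : 0 < g) (h1 : C.P1 k g) (h2 : C.P2 k g) : False := by
  classical
  have hex : ∃ K : ℕ, bb ^ K < 1 / 10 ^ 15 :=
    exists_pow_lt_of_lt_one (show (0:ℝ) < 1 / 10 ^ 15 by norm_num) bb_lt
  set K1 := Nat.find hex with hK1def
  have hK1 : bb ^ K1 < 1 / 10 ^ 15 := Nat.find_spec hex
  have hK0 : K1 ≠ 0 := by
    intro h0
    rw [h0, pow_zero] at hK1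
    norm_num at hK1
  obtain ⟨m, hm⟩ := Nat.exists_eq_succ_of_ne_zero hK0
  have hm2 : 1 / 10 ^ 15 ≤ bb ^ m := by
    by_contra hcon
    push Not at hcon
    have := Nat.find_min' hex hcon
    omega
  have hlow : 1 / 10 ^ 17 ≤ bb ^ K1 := by
    rw [hm, pow_succ]
    have hb : bb = 399 / 400 := rfl
    rw [hb] at hm2 ⊢
    calc (1 : ℝ) / 10 ^ 17 ≤ 1 / 10 ^ 15 * (399 / 400) := by norm_num
      _ ≤ (399 / 400) ^ m * (399 / 400) := by gcongr
  have hε2 : √C.ε ≤ bb ^ K1 / 10 ^ 18 := by
    rw [Real.sqrt_le_iff]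
    refine ⟨by positivity, hε1.trans ?_⟩
    calc (1 : ℝ) / 10 ^ 70 = ((1 / 10 ^ 17) / 10 ^ 18) ^ 2 := by norm_num
      _ ≤ (bb ^ K1 / 10 ^ 18) ^ 2 := by gcongr
  have hε6 : C.ε ≤ 1 / 10 ^ 6 := hε1.trans (by norm_num)
  have hE : ∀ j ≤ k, ∀ neg, ∃ e, DirOn (C.ch j neg) SR e :=
    fun j hj neg => dirSR C hε1 k g h1 h2 j hj neg
  have hcen : ((3 / 10 : ℝ), (1 / 2 : ℝ)) ∈ SR := by
    unfold SR
    constructor <;> constructor <;> norm_num
  have hcen_cov : ∀ j neg, dsk (3 / 10, 1 / 2) (1 / 20) ⊆ (C.ch j neg).cov := by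
    intro j neg p hp
    obtain ⟨h3, h4⟩ := sr_geo C.ε C.hε hε6 _ hcen p hp
    exact reg_cov C j neg p (by have := h3.2.2; linarith) h4
  choose! E hE using hE
  have hsteep : ∀ j ≤ k, 1 / 2 * |(E j false).2| < |(E j false).1| := by
    intro j hj
    induction' hm : k - j with m ih generalizing j
    · obtain rfl : j = k := by omega
      by_contra hns
      push Not at hns
      exact stageB_caseA C hε1 j g hg h1 h2 _ (hE j le_rfl false) hns
    · have hj1 := ih (j + 1) (by omega) (by omega)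
      by_contra hns
      push Not at hns
      have ha := adj C j false _ _ (hE (j + 1) (by omega) false) (hE j hj false)
        (hcen_cov (j + 1) false) hj1
      obtain ⟨neg, f, hf, hf2, hs1, hs2⟩ := tilt C j _ _ (hE j hj false) (hE j hj true)
        (hcen_cov j false) hns ha
      exact stageB_caseB K1 hK1 C hε1 hε2 k g hg h1 h2 j hj neg f hf hf2 hs1 hs2
  exact stageB_caseC C hε1 k g hg h1 h2 _ (hE 0 (Nat.zero_le _) false) (hsteep 0 (Nat.zero_le _))

lemma norm_sq_two (x : E2) : ‖x‖ ^ 2 = x 0 ^ 2 + x 1 ^ 2 := by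
  rw [EuclideanSpace.norm_sq_eq, Fin.sum_univ_two]
  simp

lemma inner_two (x u : E2) : inner ℝ x u = x 0 * u 0 + x 1 * u 1 := by
  rw [PiLp.inner_apply, Fin.sum_univ_two]
  simp [mul_comm]

/-- Every hole in the interior of the unit disc can be moved on the vertical axis. -/
lemma hole (c : E2) (ε : ℝ) (hε : 0 < ε) (h : closedBall c ε ⊆ interior (closedBall (0 : E2) 1)) :
    ∃ (p q : ℝ), p ^ 2 + q ^ 2 = 1 ∧ c 0 = -(‖c‖ * p) ∧ c 1 = -(‖c‖ * q) ∧ ‖c‖ + ε < 1 := by
  rw [interior_closedBall _ one_ne_zero] at h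
  by_cases hc : c = 0
  · subst hc
    refine ⟨1, 0, by norm_num, by simp, by simp, ?_⟩
    have h1 : (EuclideanSpace.single (0 : Fin 2) ε : E2) ∈ ball (0 : E2) 1 := by
      apply h
      rw [mem_closedBall, dist_zero_right, PiLp.norm_single, Real.norm_eq_abs,
        abs_of_pos hε]
    rw [mem_ball, dist_zero_right, PiLp.norm_single, Real.norm_eq_abs,
      abs_of_pos hε] at h1
    rw [norm_zero]
    linarith
  · have hn : 0 < ‖c‖ := norm_pos_iff.mpr hc
    refine ⟨-(c 0 / ‖c‖), -(c 1 / ‖c‖), ?_, ?_, ?_, ?_⟩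
    · have := norm_sq_two c
      field_simp
      linarith
    · field_simp
    · field_simp
    · have h1 : c + (ε / ‖c‖) • c ∈ ball (0 : E2) 1 := by
        apply h
        rw [mem_closedBall, dist_eq_norm, add_sub_cancel_left, norm_smul, Real.norm_eq_abs,
          abs_of_pos (by positivity)]
        exact le_of_eq (by field_simp)
      rw [mem_ball, dist_zero_right] at h1
      have h2 : c + (ε / ‖c‖) • c = (1 + ε / ‖c‖) • c := by rw [add_smul, one_smul]
      rw [h2, norm_smul, Real.norm_eq_abs, abs_of_pos (by positivity)] at h1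
      have h3 : (1 + ε / ‖c‖) * ‖c‖ = ‖c‖ + ε := by field_simp
      linarith

/-- the theorem for the disc, with the planks given by arbitrary normal vectors -/
theorem disc (ε : ℝ) (hε : 0 < ε) (hεε : ε ≤ 1 / 10 ^ 70) (c : E2)
    (hc : closedBall c ε ⊆ interior (closedBall (0 : E2) 1))
    (u : Fin n → E2) (a w : Fin n → ℝ) (hu0 : ∀ i, u i ≠ 0) (hw : ∀ i, 0 < w i)
    (hcov : closedBall (0 : E2) 1 \ closedBall c ε ⊆
      ⋃ i, {x : E2 | a i ≤ inner ℝ x (u i) ∧ inner ℝ x (u i) ≤ a i + w i}) :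
    2 ≤ ∑ i, w i / ‖u i‖ := by
  have hεb : ε ≤ 1 / 20 := hεε.trans (by norm_num)
  obtain ⟨p, q, hpq, hc0, hc1, hcε⟩ := hole c ε hε hc
  by_contra hlt
  push Not at hlt
  have hnorm : ∀ i, (u i 0 * q - u i 1 * p) ^ 2 + (u i 0 * p + u i 1 * q) ^ 2 = ‖u i‖ ^ 2 := by
    intro i
    have h1 : (u i 0 * q - u i 1 * p) ^ 2 + (u i 0 * p + u i 1 * q) ^ 2 =
        ((u i 0) ^ 2 + (u i 1) ^ 2) * (p ^ 2 + q ^ 2) := by ring
    rw [h1, hpq, mul_one, norm_sq_two]
  let F : Fam n :=
    { a := fun i => u i 0 * q - u i 1 * p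
      b := fun i => u i 0 * p + u i 1 * q
      c := fun i => a i + w i / 2 + (u i 0 * p + u i 1 * q)
      d := fun i => w i / 2
      nz := fun i => by
        rw [hnorm i]
        have := norm_pos_iff.2 (hu0 i)
        positivity
      dn := fun i => by
        have := hw i
        positivity }
  have hnn := norm_nonneg c
  let C : Cfg n :=
    { F := F
      η := 1 - ‖c‖
      ε := ε
      hε := hε
      hηε := by linarith
      hη := by linarith
      hcov := by
        intro x y h1 h2
        set z : E2 := !₂[x * q + (y - 1) * p, -(x * p) + (y - 1) * q] with hz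
        have z0 : z 0 = x * q + (y - 1) * p := by simp [hz]
        have z1 : z 1 = -(x * p) + (y - 1) * q := by simp [hz]
        have hz1 : z ∈ closedBall (0 : E2) 1 := by
          rw [mem_closedBall, dist_zero_right]
          have h3 : ‖z‖ ^ 2 ≤ 1 := by
            rw [norm_sq_two, z0, z1]
            have h4 : (x * q + (y - 1) * p) ^ 2 + (-(x * p) + (y - 1) * q) ^ 2 =
                (x ^ 2 + (y - 1) ^ 2) * (p ^ 2 + q ^ 2) := by ring
            rw [h4, hpq]
            linarith
          nlinarith [norm_nonneg z]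
        have hz2 : z ∉ closedBall c ε := by
          rw [mem_closedBall, dist_eq_norm]
          intro h3
          have h4 : ‖z - c‖ ^ 2 ≤ ε ^ 2 := by
            have := norm_nonneg (z - c)
            gcongr
          rw [norm_sq_two] at h4
          have h5 : (z - c) 0 = x * q + (y - (1 - ‖c‖)) * p := by
            rw [PiLp.sub_apply, z0, hc0]
            ring
          have h6 : (z - c) 1 = -(x * p) + (y - (1 - ‖c‖)) * q := by
            rw [PiLp.sub_apply, z1, hc1]
            ring
          rw [h5, h6] at h4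
          have h7 : (x * q + (y - (1 - ‖c‖)) * p) ^ 2 + (-(x * p) + (y - (1 - ‖c‖)) * q) ^ 2 =
              (x ^ 2 + (y - (1 - ‖c‖)) ^ 2) * (p ^ 2 + q ^ 2) := by ring
          rw [h7, hpq] at h4
          linarith
        obtain ⟨i, hi⟩ := mem_iUnion.mp (hcov ⟨hz1, hz2⟩)
        obtain ⟨h8, h9⟩ := hi
        rw [inner_two, z0, z1] at h8 h9
        refine ⟨i, ?_⟩
        change |(u i 0 * q - u i 1 * p) * x + (u i 0 * p + u i 1 * q) * y -
          (a i + w i / 2 + (u i 0 * p + u i 1 * q))| ≤ w i / 2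
        rw [abs_le]
        constructor <;> linarith }
  have hnm : ∀ i, F.nm i = ‖u i‖ := by
    intro i
    change √((u i 0 * q - u i 1 * p) ^ 2 + (u i 0 * p + u i 1 * q) ^ 2) = _
    rw [hnorm i, Real.sqrt_sq (norm_nonneg _)]
  have hsum : ∑ i, 2 * C.F.d i / C.F.nm i < 2 := by
    have h1 : ∀ i, 2 * C.F.d i / C.F.nm i = w i / ‖u i‖ := by
      intro i
      change 2 * (w i / 2) / F.nm i = w i / ‖u i‖
      rw [hnm i]
      ring
    rw [Finset.sum_congr rfl (fun i _ => h1 i)]
    exact hlt
  obtain ⟨k, g, hg, hP1, hP2⟩ := stageA C hεb hsum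
  exact stageB_explicit C hεε k g hg hP1 hP2

/-- the width of a plane set in the direction `u` -/
noncomputable def width (E : Set E2) (u : E2) : ℝ :=
  sSup ((fun x : E2 => (inner ℝ x u : ℝ)) '' E) - sInf ((fun x : E2 => (inner ℝ x u : ℝ)) '' E)

/-- support function of the image of the disc -/
theorem image_disc (A : E2 ≃L[ℝ] E2) (b u : E2) :
    IsGreatest ((fun x : E2 => (inner ℝ x u : ℝ)) '' ((fun x => A x + b) '' closedBall 0 1))
      (inner ℝ b u + ‖ContinuousLinearMap.adjoint (A : E2 →L[ℝ] E2) u‖) := by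
  set v := ContinuousLinearMap.adjoint (A : E2 →L[ℝ] E2) u with hv
  have key : ∀ x : E2, (inner ℝ (A x + b) u : ℝ) = inner ℝ b u + inner ℝ x v := by
    intro x
    rw [inner_add_left, hv, ContinuousLinearMap.adjoint_inner_right]
    simp only [ContinuousLinearEquiv.coe_coe]
    ring
  constructor
  · by_cases h0 : v = 0
    · refine ⟨A 0 + b, ⟨0, by simp, rfl⟩, ?_⟩
      simp only [key, h0]
      simp
    · have hn : 0 < ‖v‖ := norm_pos_iff.2 h0
      refine ⟨A (‖v‖⁻¹ • v) + b, ⟨‖v‖⁻¹ • v, ?_, rfl⟩, ?_⟩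
      · rw [mem_closedBall, dist_zero_right, norm_smul, norm_inv, norm_norm,
          inv_mul_cancel₀ hn.ne']
      · simp only [key]
        rw [real_inner_smul_left, real_inner_self_eq_norm_sq]
        field_simp
  · rintro _ ⟨_, ⟨x, hx, rfl⟩, rfl⟩
    simp only [key]
    rw [mem_closedBall, dist_zero_right] at hx
    have h1 := real_inner_le_norm x v
    have h2 := mul_le_mul_of_nonneg_right hx (norm_nonneg v)
    linarith

theorem width_eq (A : E2 ≃L[ℝ] E2) (b u : E2) :
    width ((fun x => A x + b) '' closedBall 0 1) u =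
      2 * ‖ContinuousLinearMap.adjoint (A : E2 →L[ℝ] E2) u‖ := by
  have h1 := image_disc A b u
  have h2 := image_disc A b (-u)
  set E := (fun x => A x + b) '' closedBall (0 : E2) 1
  rw [map_neg, norm_neg, inner_neg_right] at h2
  have h3 : IsLeast ((fun x : E2 => (inner ℝ x u : ℝ)) '' E)
      (inner ℝ b u - ‖ContinuousLinearMap.adjoint (A : E2 →L[ℝ] E2) u‖) := by
    constructor
    · obtain ⟨x, hx, hxe⟩ := h2.1
      refine ⟨x, hx, ?_⟩
      simp only [inner_neg_right] at hxe
      simp only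
      linarith
    · rintro _ ⟨x, hx, rfl⟩
      have := h2.2 ⟨x, hx, rfl⟩
      simp only [inner_neg_right] at this
      simp only
      linarith
  unfold width
  rw [h1.csSup_eq, h3.csInf_eq]
  ring

/-- the theorem for ellipses -/
theorem ellipse (A : E2 ≃L[ℝ] E2) (b : E2) (ε : ℝ) (hε : 0 < ε) (hεε : ε ≤ 1 / 10 ^ 70) (c : E2)
    (hc : (fun x => A x + b) '' closedBall c ε ⊆ interior ((fun x => A x + b) '' closedBall 0 1))
    (u : Fin n → E2) (a w : Fin n → ℝ) (hu : ∀ i, ‖u i‖ = 1) (hw : ∀ i, 0 < w i)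
    (hcov : (fun x => A x + b) '' closedBall 0 1 \ (fun x => A x + b) '' closedBall c ε ⊆
      ⋃ i, {x : E2 | a i ≤ inner ℝ x (u i) ∧ inner ℝ x (u i) ≤ a i + w i}) :
    1 ≤ ∑ i, w i / width ((fun x => A x + b) '' closedBall 0 1) (u i) := by
  have hinj : Function.Injective fun x => A x + b := by
    intro x y hxy
    exact A.injective (add_right_cancel hxy)
  have hint : interior ((fun x => A x + b) '' closedBall (0 : E2) 1) =
      (fun x => A x + b) '' interior (closedBall (0 : E2) 1) := by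
    have := (A.toHomeomorph.trans (Homeomorph.addRight b)).image_interior (closedBall (0 : E2) 1)
    exact this.symm
  have hc' : closedBall c ε ⊆ interior (closedBall (0 : E2) 1) := by
    intro x hx
    have h1 := hc (mem_image_of_mem _ hx)
    rw [hint] at h1
    obtain ⟨y, hy, hxy⟩ := h1
    rw [← hinj hxy]
    exact hy
  let v : Fin n → E2 := fun i => ContinuousLinearMap.adjoint (A : E2 →L[ℝ] E2) (u i)
  have hv0 : ∀ i, v i ≠ 0 := by
    intro i h0
    have h1 : (inner ℝ (A (A.symm (u i))) (u i) : ℝ) = 0 := by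
      have h2 := ContinuousLinearMap.adjoint_inner_right (A : E2 →L[ℝ] E2) (A.symm (u i)) (u i)
      rw [show ContinuousLinearMap.adjoint (A : E2 →L[ℝ] E2) (u i) = 0 from h0,
        inner_zero_right] at h2
      exact h2.symm
    rw [ContinuousLinearEquiv.apply_symm_apply, real_inner_self_eq_norm_sq, hu i] at h1
    norm_num at h1
  have key : ∀ (x : E2) i, (inner ℝ (A x + b) (u i) : ℝ) = inner ℝ b (u i) + inner ℝ x (v i) := by
    intro x i
    simp only [v]
    rw [inner_add_left, ContinuousLinearMap.adjoint_inner_right]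
    simp only [ContinuousLinearEquiv.coe_coe]
    ring
  have h2 := disc ε hε hεε c hc' v (fun i => a i - inner ℝ b (u i)) w hv0 hw (by
    rintro x ⟨hx1, hx2⟩
    have hx3 : A x + b ∈ (fun x => A x + b) '' closedBall 0 1 \
        (fun x => A x + b) '' closedBall c ε := by
      refine ⟨mem_image_of_mem _ hx1, ?_⟩
      rintro ⟨y, hy, hyx⟩
      apply hx2
      rw [← hinj hyx]
      exact hy
    obtain ⟨i, hi⟩ := mem_iUnion.1 (hcov hx3)
    refine mem_iUnion.2 ⟨i, ?_⟩
    have h3 := hi.1
    have h4 := hi.2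
    rw [key] at h3 h4
    constructor <;> linarith)
  have h3 : ∀ i, w i / width ((fun x => A x + b) '' closedBall 0 1) (u i) =
      (w i / ‖v i‖) / 2 := by
    intro i
    rw [width_eq]
    simp only [v]
    rw [div_div, mul_comm]
  rw [Finset.sum_congr rfl fun i _ => h3 i, ← Finset.sum_div, le_div_iff₀ two_pos]
  linarith

end Pool.Agent.Y512.Ann
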